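import Pool.Agent.N939.ME.Stm2

/-!
The forward killed resolvent against the full resolvent (`S_ZF`).
-/

set_option autoImplicit false
open MeasureTheory ProbabilityTheory Filter Topology Finset
open scoped Classical ENNReal

namespace Pool.Agent.N558.ME

open Pool.Agent.N939.ME

section gen

/-- Jensen -/
lemma jen {α : Type} [MeasurableSpace α] (P : Measure α) [IsProbabilityMeasure P] {h : α → ℝ}
    (hh : Measurable h) : ‖∫ y, h y ∂P‖ₑ ^ 2 ≤ ∫⁻ y, ‖h y‖ₑ ^ 2 ∂P := by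
  have h1 : ‖∫ y, h y ∂P‖ₑ ≤ ∫⁻ y, ‖h y‖ₑ ∂P := enorm_integral_le_lintegral_enorm _
  have h2 : eLpNorm h 1 P ≤ eLpNorm h 2 P :=
    eLpNorm_le_eLpNorm_of_exponent_le (by norm_num) hh.aestronglyMeasurable
  rw [eLpNorm_one_eq_lintegral_enorm] at h2
  have h3 : eLpNorm h 2 P ^ 2 = ∫⁻ y, ‖h y‖ₑ ^ 2 ∂P := by
    have := eLpNorm_nnreal_pow_eq_lintegral (μ := P) (f := h) (p := 2) (by norm_num)
    simpa using this
  rw [← h3]
  gcongr
  exact h1.trans h2

lemma ae_nu {S : Type} [MeasurableSpace S] (Q : Kernel S S) (ν : Measure S)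
    (hν : ν.bind Q = ν) {p : S → Prop} (hp : ∀ᵐ y ∂ν, p y) : ∀ᵐ x ∂ν, ∀ᵐ y ∂(Q x), p y := by
  rw [← hν] at hp
  exact Measure.ae_ae_of_ae_bind Q.aemeasurable hp

lemma lint_nu {S : Type} [MeasurableSpace S] (Q : Kernel S S) (ν : Measure S)
    (hν : ν.bind Q = ν) {g : S → ℝ≥0∞} (hg : Measurable g) :
    ∫⁻ x, ∫⁻ y, g y ∂(Q x) ∂ν = ∫⁻ x, g x ∂ν := by
  conv_rhs => rw [← hν]
  rw [Measure.lintegral_bind Q.aemeasurable hg.aemeasurable]

lemma lam_ae : ∀ᵐ r ∂lam, r ∈ Set.Ioo (0:ℝ) 1 := by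
  unfold lam
  exact ae_restrict_mem measurableSet_Ioo

lemma nuh_ae {S : Type} [MeasurableSpace S] (ν : Measure S) [IsProbabilityMeasure ν] :
    ∀ᵐ p ∂(nuh ν), p.1 ∈ Set.Ioo (0:ℝ) 1 := by
  unfold nuh
  exact (Measure.quasiMeasurePreserving_fst (μ := lam) (ν := ν)).ae lam_ae

end gen

section one
variable {S : Type} [MeasurableSpace S]

/-- measurable and square integrable for the hat measure -/
def Nice (ν : Measure S) (h : ℝ × S → ℝ) : Prop := Measurable h ∧ MemLp h 2 (nuh ν)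

variable {Q : Kernel S S} {ν : Measure S}

lemma Nice.add {h h' : ℝ × S → ℝ} (a : Nice ν h) (b : Nice ν h') :
    Nice ν (fun p => h p + h' p) := ⟨a.1.add b.1, a.2.add b.2⟩

lemma Nice.sub {h h' : ℝ × S → ℝ} (a : Nice ν h) (b : Nice ν h') :
    Nice ν (fun p => h p - h' p) := ⟨a.1.sub b.1, a.2.sub b.2⟩

lemma Nice.neg {h : ℝ × S → ℝ} (a : Nice ν h) : Nice ν (fun p => - h p) := ⟨a.1.neg, a.2.neg⟩

lemma Nice.zero : Nice ν (fun _ => (0:ℝ)) := ⟨measurable_const, MemLp.zero⟩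

lemma meas_ind {B : Set S} (hB : MeasurableSet B) :
    Measurable fun p : ℝ × S => B.indicator (1 : S → ℝ) p.2 :=
  (measurable_one.indicator hB).comp measurable_snd

omit [MeasurableSpace S] in
lemma ind_01 (B : Set S) (x : S) : B.indicator (1 : S → ℝ) x = 0 ∨ B.indicator (1 : S → ℝ) x = 1 := by
  by_cases h : x ∈ B
  · right; simp [h]
  · left; simp [h]

lemma Nice.ind {h : ℝ × S → ℝ} (a : Nice ν h) {B : Set S} (hB : MeasurableSet B) :
    Nice ν (fun p => B.indicator (1 : S → ℝ) p.2 * h p) := by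
  refine ⟨(meas_ind hB).mul a.1, a.2.of_le ((meas_ind hB).mul a.1).aestronglyMeasurable ?_⟩
  refine Eventually.of_forall fun p => ?_
  rw [norm_mul]
  rcases ind_01 B p.2 with h0 | h0 <;> simp [h0]

lemma Nice.fst [IsProbabilityMeasure ν] {h : ℝ × S → ℝ} (a : Nice ν h) :
    Nice ν (fun p => p.1 * h p) := by
  refine ⟨measurable_fst.mul a.1, a.2.of_le (measurable_fst.mul a.1).aestronglyMeasurable ?_⟩
  filter_upwards [nuh_ae ν] with p hp
  rw [norm_mul]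
  have : ‖p.1‖ ≤ 1 := by
    rw [Real.norm_of_nonneg hp.1.le]; exact hp.2.le
  exact mul_le_of_le_one_left (norm_nonneg _) this

lemma Nice.snd [IsProbabilityMeasure ν] {f : S → ℝ} (hf : Measurable f) (h2 : MemLp f 2 ν) :
    Nice ν (fun p => f p.2) := by
  refine ⟨hf.comp measurable_snd, ?_⟩
  have : MeasurePreserving (Prod.snd : ℝ × S → S) (nuh ν) ν := by
    unfold nuh
    exact measurePreserving_snd
  exact h2.comp_measurePreserving this

end one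

section two
variable {S : Type} [MeasurableSpace S]

/-- the part of `zeta` coming from exits -/
noncomputable def zp (Q : Kernel S S) (Φ : ℝ × S → ℝ) (B : ℕ → Set S) : ℕ → ℕ → ℝ × S → ℝ
  | 0, _ => fun _ => 0
  | i + 1, t => fun p => (B t).indicator (1 : S → ℝ) p.2 * TT (Qh Q) (fun q =>
      ((B (t + 1))ᶜ).indicator (1 : S → ℝ) q.2 * Φ q + q.1 * zp Q Φ B i (t + 1) q) p

/-- the part of `zeta` coming from the end -/
noncomputable def zs (Q : Kernel S S) (Φ : ℝ × S → ℝ) (B : ℕ → Set S) : ℕ → ℕ → ℝ × S → ℝ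
  | 0, t => fun p => (B t).indicator (1 : S → ℝ) p.2 * TT (Qh Q) Φ p
  | i + 1, t => fun p => (B t).indicator (1 : S → ℝ) p.2 * TT (Qh Q) (fun q =>
      q.1 * zs Q Φ B i (t + 1) q) p

variable {Q : Kernel S S} [IsMarkovKernel Q] {ν : Measure S} [IsProbabilityMeasure ν]

lemma Nice.TT (hHAT : S_HAT) (hTT : S_TT) (hν : ν.bind Q = ν) {h : ℝ × S → ℝ} (a : Nice ν h) :
    Nice ν (TT (Qh Q) h) := by
  obtain ⟨t1, _, t3, _⟩ := hTT (ℝ × S) (Qh Q) (nuh ν) (hHAT S Q ν hν).2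
  exact ⟨t1 h a.1, (t3 h a.2).1⟩

lemma Nice.integrable {h : ℝ × S → ℝ} (a : Nice ν h) : Integrable h (nuh ν) :=
  a.2.integrable (by norm_num)

lemma TT_add (hHAT : S_HAT) (hTT : S_TT) (hν : ν.bind Q = ν) {h h' : ℝ × S → ℝ} (a : Nice ν h)
    (b : Nice ν h') : TT (Qh Q) (fun p => h p + h' p) =ᵐ[nuh ν]
      fun p => TT (Qh Q) h p + TT (Qh Q) h' p := by
  obtain ⟨_, _, _, _, _, t6⟩ := hTT (ℝ × S) (Qh Q) (nuh ν) (hHAT S Q ν hν).2
  exact t6 h h' a.integrable b.integrable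

omit [IsMarkovKernel Q] in
lemma TT_neg (h : ℝ × S → ℝ) (p : ℝ × S) :
    TT (Qh Q) (fun p => - h p) p = - TT (Qh Q) h p := by
  unfold Pool.Agent.N939.ME.TT
  exact integral_neg _

lemma TT_sub (hHAT : S_HAT) (hTT : S_TT) (hν : ν.bind Q = ν) {h h' : ℝ × S → ℝ} (a : Nice ν h)
    (b : Nice ν h') : TT (Qh Q) (fun p => h p - h' p) =ᵐ[nuh ν]
      fun p => TT (Qh Q) h p - TT (Qh Q) h' p := by
  have h1 := TT_add hHAT hTT hν a b.neg
  filter_upwards [h1] with p hp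
  rw [TT_neg] at hp
  simpa [sub_eq_add_neg] using hp

lemma TT_congr (hHAT : S_HAT) (hTT : S_TT) (hν : ν.bind Q = ν) {h h' : ℝ × S → ℝ}
    (a : h =ᵐ[nuh ν] h') : TT (Qh Q) h =ᵐ[nuh ν] TT (Qh Q) h' := by
  obtain ⟨_, _, _, t4, _⟩ := hTT (ℝ × S) (Qh Q) (nuh ν) (hHAT S Q ν hν).2
  exact t4 h h' a

lemma nice_zp (hHAT : S_HAT) (hTT : S_TT) (hν : ν.bind Q = ν) {Φ : ℝ × S → ℝ} (hΦ : Nice ν Φ)
    {B : ℕ → Set S} (hB : ∀ t, MeasurableSet (B t)) : ∀ i t, Nice ν (zp Q Φ B i t)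
  | 0, _ => Nice.zero
  | i + 1, t => ((hΦ.ind (hB (t + 1)).compl).add
      (nice_zp hHAT hTT hν hΦ hB i (t + 1)).fst).TT hHAT hTT hν |>.ind (hB t)

lemma nice_zs (hHAT : S_HAT) (hTT : S_TT) (hν : ν.bind Q = ν) {Φ : ℝ × S → ℝ} (hΦ : Nice ν Φ)
    {B : ℕ → Set S} (hB : ∀ t, MeasurableSet (B t)) : ∀ i t, Nice ν (zs Q Φ B i t)
  | 0, t => (hΦ.TT hHAT hTT hν).ind (hB t)
  | i + 1, t => ((nice_zs hHAT hTT hν hΦ hB i (t + 1)).fst.TT hHAT hTT hν).ind (hB t)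

lemma nice_gam (hHAT : S_HAT) (hTT : S_TT) (hν : ν.bind Q = ν) {f : S → ℝ} (hf : Measurable f)
    (hf2 : MemLp f 2 ν) {B : ℕ → Set S} (hB : ∀ t, MeasurableSet (B t)) :
    ∀ i t, Nice ν (gam Q f B i t)
  | 0, _ => Nice.zero
  | i + 1, t => ((Nice.snd hf hf2).add
      ((nice_gam hHAT hTT hν hf hf2 hB i (t + 1)).TT hHAT hTT hν).fst).ind (hB t)

/-- the decomposition of `zeta` -/
lemma dec (hHAT : S_HAT) (hTT : S_TT) (hν : ν.bind Q = ν) {f : S → ℝ} {Φ Ψ : ℝ × S → ℝ}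
    (hR : Res Q ν f Φ Ψ) {B : ℕ → Set S} (hB : ∀ t, MeasurableSet (B t)) (i : ℕ) : ∀ t,
    (fun p : ℝ × S => (B t).indicator (1 : S → ℝ) p.2 *
      (TT (Qh Q) Φ p - TT (Qh Q) (gam Q f B i (t + 1)) p)) =ᵐ[nuh ν]
    fun p => zp Q Φ B i t p + zs Q Φ B i t p := by
  have hΦ : Nice ν Φ := ⟨hR.mΦ, hR.lΦ⟩
  induction i with
  | zero =>
    intro t
    refine Eventually.of_forall fun p => ?_
    have : Pool.Agent.N939.ME.TT (Qh Q) (gam Q f B 0 (t + 1)) p = 0 := by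
      unfold Pool.Agent.N939.ME.TT
      simp [gam]
    simp only [this, zp, zs, sub_zero, zero_add]
  | succ i ih =>
    intro t
    have hg := nice_gam hHAT hTT hν hR.mf hR.lf hB (i + 1) (t + 1)
    have h1 := TT_sub hHAT hTT hν hΦ hg
    have hz1 := nice_zp hHAT hTT hν hΦ hB i (t + 1)
    have hz2 := nice_zs hHAT hTT hν hΦ hB i (t + 1)
    have hu : Nice ν (fun q : ℝ × S => ((B (t + 1))ᶜ).indicator (1 : S → ℝ) q.2 * Φ q +
        q.1 * zp Q Φ B i (t + 1) q) := (hΦ.ind (hB (t + 1)).compl).add hz1.fst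
    have h2 := TT_add hHAT hTT hν hu hz2.fst
    have h3 : (fun p : ℝ × S => Φ p - gam Q f B (i + 1) (t + 1) p) =ᵐ[nuh ν]
        fun q : ℝ × S => (((B (t + 1))ᶜ).indicator (1 : S → ℝ) q.2 * Φ q +
        q.1 * zp Q Φ B i (t + 1) q) + q.1 * zs Q Φ B i (t + 1) q := by
      filter_upwards [ih (t + 1), hR.eΦ] with p hp hp2
      have e : (((B (t + 1))ᶜ).indicator (1 : S → ℝ) p.2) =
          1 - (B (t + 1)).indicator (1 : S → ℝ) p.2 := by
        by_cases h : p.2 ∈ B (t + 1) <;> simp [h]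
      rw [e, add_assoc, ← mul_add, ← hp]
      simp only [gam]
      rcases ind_01 (B (t + 1)) p.2 with h0 | h0
      · rw [h0]; ring
      · rw [h0]
        linear_combination hp2
    have h4 := TT_congr hHAT hTT hν h3
    filter_upwards [h1, h2, h4] with p e1 e2 e4
    rw [← e1, e4, e2]
    simp only [zp, zs]
    ring

/-- the end part -/
lemma zs_bound (hHAT : S_HAT) (hTT : S_TT) (hν : ν.bind Q = ν) {Φ : ℝ × S → ℝ} (hΦ : Nice ν Φ)
    {B : ℕ → Set S} (hB : ∀ t, MeasurableSet (B t)) (i : ℕ) : ∀ k t,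
    ∫⁻ p, ‖p.1 ^ k * zs Q Φ B i t p‖ₑ ^ 2 ∂(nuh ν) ≤ ∫⁻ p, ‖p.1 ^ (k + i) * Φ p‖ₑ ^ 2 ∂(nuh ν) := by
  obtain ⟨hh1, hh2⟩ := hHAT S Q ν hν
  -- one application of the operator
  have key : ∀ (k t : ℕ) (h : ℝ × S → ℝ), Nice ν h →
      ∫⁻ p, ‖p.1 ^ k * ((B t).indicator (1 : S → ℝ) p.2 * TT (Qh Q) h p)‖ₑ ^ 2 ∂(nuh ν) ≤
        ∫⁻ p, ‖p.1 ^ k * h p‖ₑ ^ 2 ∂(nuh ν) := by
    intro k t h hh
    have hm : Measurable fun p : ℝ × S => p.1 ^ k * h p := (measurable_fst.pow_const k).mul hh.1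
    have e1 : ∀ p : ℝ × S, p.1 ^ k * TT (Qh Q) h p = TT (Qh Q) (fun q => q.1 ^ k * h q) p := by
      rintro ⟨r, x⟩
      rw [hh1, hh1]
      exact (integral_const_mul _ _).symm
    calc ∫⁻ p, ‖p.1 ^ k * ((B t).indicator (1 : S → ℝ) p.2 * TT (Qh Q) h p)‖ₑ ^ 2 ∂(nuh ν)
        ≤ ∫⁻ p, ∫⁻ q, ‖q.1 ^ k * h q‖ₑ ^ 2 ∂(Qh Q p) ∂(nuh ν) := by
          refine lintegral_mono fun p => ?_
          have e2 : ‖p.1 ^ k * ((B t).indicator (1 : S → ℝ) p.2 * TT (Qh Q) h p)‖ₑ ≤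
              ‖TT (Qh Q) (fun q => q.1 ^ k * h q) p‖ₑ := by
            rw [← e1]
            rcases ind_01 (B t) p.2 with h0 | h0
            · rw [h0]; simp
            · rw [h0, one_mul]
          calc _ ≤ ‖TT (Qh Q) (fun q => q.1 ^ k * h q) p‖ₑ ^ 2 := by gcongr
            _ ≤ _ := jen (Qh Q p) hm
      _ = ∫⁻ p, ‖p.1 ^ k * h p‖ₑ ^ 2 ∂(nuh ν) :=
          lint_nu (Qh Q) (nuh ν) hh2 (hm.enorm.pow_const 2)
  induction i with
  | zero =>
    intro k t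
    exact key k t Φ hΦ
  | succ i ih =>
    intro k t
    refine (key k t _ (nice_zs hHAT hTT hν hΦ hB i (t + 1)).fst).trans ?_
    have := ih (k + 1) (t + 1)
    have e : k + (i + 1) = k + 1 + i := by ring
    rw [e]
    refine le_trans (le_of_eq ?_) this
    refine lintegral_congr fun p => ?_
    have e3 : p.1 ^ k * (p.1 * zs Q Φ B i (t + 1) p) = p.1 ^ (k + 1) * zs Q Φ B i (t + 1) p := by
      ring
    rw [e3]

end two

section three
variable {S : Type} [MeasurableSpace S]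

/-- weighted square integral in `r` -/
noncomputable def Lw (w : ℝ → ℝ≥0∞) (F : ℝ × S → ℝ) (x : S) : ℝ≥0∞ :=
  ∫⁻ r, w r * ‖F (r, x)‖ₑ ^ 2 ∂lam

lemma meas_Lw {w : ℝ → ℝ≥0∞} (hw : Measurable w) {F : ℝ × S → ℝ} (hF : Measurable F) :
    Measurable (Lw w F) := by
  unfold Lw
  have : Measurable fun q : S × ℝ => w q.2 * ‖F (q.2, q.1)‖ₑ ^ 2 :=
    (hw.comp measurable_snd).mul ((hF.comp measurable_swap).enorm.pow_const 2)
  exact this.lintegral_prod_right'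

variable {Q : Kernel S S} [IsMarkovKernel Q] {ν : Measure S} [IsProbabilityMeasure ν]

lemma Lw_TT (hHAT : S_HAT) (hν : ν.bind Q = ν) {w : ℝ → ℝ≥0∞} (hw : Measurable w)
    {h : ℝ × S → ℝ} (hh : Measurable h) (B : Set S) (x : S) :
    Lw w (fun p => B.indicator (1 : S → ℝ) p.2 * TT (Qh Q) h p) x ≤
      B.indicator (fun x => ∫⁻ y, Lw w h y ∂(Q x)) x := by
  obtain ⟨hh1, _⟩ := hHAT S Q ν hν
  by_cases hx : x ∈ B
  · rw [Set.indicator_of_mem hx]
    unfold Lw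
    have hm : Measurable fun q : ℝ × S => w q.1 * ‖h q‖ₑ ^ 2 :=
      (hw.comp measurable_fst).mul (hh.enorm.pow_const 2)
    rw [lintegral_lintegral_swap (f := fun (y : S) (r : ℝ) => w r * ‖h (r, y)‖ₑ ^ 2)
      (hm.comp measurable_swap).aemeasurable]
    refine lintegral_mono fun r => ?_
    have hr : Measurable fun y => h (r, y) := hh.comp measurable_prodMk_left
    simp only [Set.indicator_of_mem hx, Pi.one_apply, one_mul]
    rw [hh1, lintegral_const_mul _ (hr.enorm.pow_const 2)]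
    gcongr
    exact jen (Q x) hr
  · rw [Set.indicator_of_notMem hx]
    unfold Lw
    simp [Set.indicator_of_notMem hx]

omit [IsMarkovKernel Q] in
lemma zp_supp (Φ : ℝ × S → ℝ) (B : ℕ → Set S) (i t : ℕ) {p : ℝ × S} (hp : p.2 ∉ B t) :
    zp Q Φ B i t p = 0 := by
  cases i with
  | zero => rfl
  | succ i => simp [zp, Set.indicator_of_notMem hp]

omit [IsMarkovKernel Q] in
lemma Lw_h1 (w : ℝ → ℝ≥0∞) (Φ : ℝ × S → ℝ) (B : ℕ → Set S) (i t : ℕ) {y : S} (hy : y ∉ B t) :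
    Lw w (fun q : ℝ × S => ((B t)ᶜ).indicator (1 : S → ℝ) q.2 * Φ q + q.1 * zp Q Φ B i t q) y =
      Lw w Φ y := by
  unfold Lw
  refine lintegral_congr fun r => ?_
  have hy' : y ∈ (B t)ᶜ := hy
  have : zp Q Φ B i t (r, y) = 0 := zp_supp Φ B i t hy
  simp [Set.indicator_of_mem hy', this]

omit [IsMarkovKernel Q] in
lemma Lw_h2 (w : ℝ → ℝ≥0∞) (Φ : ℝ × S → ℝ) (B : ℕ → Set S) (i t : ℕ) {y : S} (hy : y ∈ B t)
    {C : ℝ≥0∞} (hC : C ≠ ∞) (hw : ∀ r ∈ Set.Ioo (0:ℝ) 1, w r * ‖r‖ₑ ^ 2 ≤ C * w r) :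
    Lw w (fun q : ℝ × S => ((B t)ᶜ).indicator (1 : S → ℝ) q.2 * Φ q + q.1 * zp Q Φ B i t q) y ≤
      C * Lw w (zp Q Φ B i t) y := by
  unfold Lw
  rw [← lintegral_const_mul' _ _ hC]
  refine lintegral_mono_ae ?_
  filter_upwards [lam_ae] with r hr
  have hy' : y ∉ (B t)ᶜ := fun h => h hy
  simp only [Set.indicator_of_notMem hy', zero_mul, zero_add]
  rw [enorm_mul, mul_pow, ← mul_assoc, ← mul_assoc]
  exact mul_le_mul' (hw r hr) le_rfl

lemma bd1 (hHAT : S_HAT) (hTT : S_TT) (hν : ν.bind Q = ν) {Φ : ℝ × S → ℝ} (hΦ : Nice ν Φ)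
    {B : ℕ → Set S} (hB : ∀ t, MeasurableSet (B t)) {w : ℝ → ℝ≥0∞} (hw : Measurable w)
    {c : ℝ≥0∞} (hc : ∀ t, ∀ᵐ x ∂ν, x ∉ B t → Lw w Φ x ≤ c) (i : ℕ) :
    ∀ t, ∀ᵐ x ∂ν, Lw w (zp Q Φ B i t) x ≤ c := by
  induction i with
  | zero =>
    intro t
    refine Eventually.of_forall fun x => ?_
    simp [Lw, zp]
  | succ i ih =>
    intro t
    have h1 : ∀ᵐ y ∂ν, Lw w (fun q : ℝ × S => ((B (t + 1))ᶜ).indicator (1 : S → ℝ) q.2 * Φ q +
        q.1 * zp Q Φ B i (t + 1) q) y ≤ c := by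
      filter_upwards [hc (t + 1), ih (t + 1)] with y hy1 hy2
      by_cases hy : y ∈ B (t + 1)
      · refine (Lw_h2 w Φ B i (t + 1) hy ENNReal.one_ne_top (fun r hr => ?_)).trans ?_
        · rw [one_mul]
          refine mul_le_of_le_one_right' ?_
          have : ‖r‖ₑ ≤ 1 := by
            rw [Real.enorm_of_nonneg hr.1.le]
            exact ENNReal.ofReal_le_one.2 hr.2.le
          exact pow_le_one₀ zero_le this
        · rw [one_mul]; exact hy2
      · rw [Lw_h1 w Φ B i (t + 1) hy]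
        exact hy1 hy
    filter_upwards [ae_nu Q ν hν h1] with x hx
    have hm : Measurable (fun q : ℝ × S => ((B (t + 1))ᶜ).indicator (1 : S → ℝ) q.2 * Φ q +
        q.1 * zp Q Φ B i (t + 1) q) :=
      ((hΦ.ind (hB (t + 1)).compl).add (nice_zp hHAT hTT hν hΦ hB i (t + 1)).fst).1
    refine (Lw_TT hHAT hν hw hm (B t) x).trans ?_
    refine (Set.indicator_le_self _ _ _).trans ?_
    calc _ ≤ ∫⁻ _, c ∂(Q x) := lintegral_mono_ae hx
      _ = c := by simp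

lemma thf_01 (hTT : S_TT) (hν : ν.bind Q = ν) {ρ : ℝ} (h0 : 0 ≤ ρ) (h1 : ρ ≤ 1)
    {B : ℕ → Set S} (hB : ∀ t, MeasurableSet (B t)) (i : ℕ) : ∀ t,
    Measurable (thf Q ρ B i t) ∧ ∀ x, 0 ≤ thf Q ρ B i t x ∧ thf Q ρ B i t x ≤ 1 ∧
      (x ∉ B t → thf Q ρ B i t x = 0) := by
  obtain ⟨t1, _⟩ := hTT S Q ν hν
  induction i with
  | zero =>
    intro t
    exact ⟨measurable_const, fun x => ⟨le_rfl, zero_le_one, fun _ => rfl⟩⟩
  | succ i ih =>
    intro t
    obtain ⟨im, ib⟩ := ih (t + 1)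
    have hm : Measurable fun y => ((B (t + 1))ᶜ).indicator (1 : S → ℝ) y +
        ρ * thf Q ρ B i (t + 1) y :=
      (measurable_one.indicator (hB (t + 1)).compl).add (im.const_mul ρ)
    have hb : ∀ y, 0 ≤ ((B (t + 1))ᶜ).indicator (1 : S → ℝ) y + ρ * thf Q ρ B i (t + 1) y ∧
        ((B (t + 1))ᶜ).indicator (1 : S → ℝ) y + ρ * thf Q ρ B i (t + 1) y ≤ 1 := by
      intro y
      obtain ⟨a, b, c⟩ := ib y
      by_cases hy : y ∈ B (t + 1)
      · have hy' : y ∉ (B (t + 1))ᶜ := fun h => h hy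
        rw [Set.indicator_of_notMem hy', zero_add]
        exact ⟨by positivity, by nlinarith⟩
      · have hy' : y ∈ (B (t + 1))ᶜ := hy
        rw [Set.indicator_of_mem hy', c hy]
        simp
    have hTTb : ∀ x, 0 ≤ TT Q (fun y => ((B (t + 1))ᶜ).indicator (1 : S → ℝ) y +
        ρ * thf Q ρ B i (t + 1) y) x ∧ TT Q (fun y => ((B (t + 1))ᶜ).indicator (1 : S → ℝ) y +
        ρ * thf Q ρ B i (t + 1) y) x ≤ 1 := by
      intro x
      unfold TT
      refine ⟨integral_nonneg fun y => (hb y).1, ?_⟩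
      have hi : Integrable (fun y => ((B (t + 1))ᶜ).indicator (1 : S → ℝ) y +
        ρ * thf Q ρ B i (t + 1) y) (Q x) :=
        Integrable.of_bound hm.aestronglyMeasurable 1 (Eventually.of_forall fun y => by
          rw [Real.norm_of_nonneg (hb y).1]; exact (hb y).2)
      calc _ ≤ ∫ _, (1:ℝ) ∂(Q x) := integral_mono hi (integrable_const _) fun y => (hb y).2
        _ = 1 := by simp
    refine ⟨(t1 _ hm).indicator (hB t), fun x => ?_⟩
    by_cases hx : x ∈ B t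
    · simp only [thf, Set.indicator_of_mem hx]
      exact ⟨(hTTb x).1, (hTTb x).2, fun h => absurd hx h⟩
    · simp only [thf, Set.indicator_of_notMem hx]
      exact ⟨le_rfl, zero_le_one, fun _ => trivial⟩

lemma bd2 (hHAT : S_HAT) (hTT : S_TT) (hν : ν.bind Q = ν) {Φ : ℝ × S → ℝ} (hΦ : Nice ν Φ)
    {B : ℕ → Set S} (hB : ∀ t, MeasurableSet (B t)) {r0 M : ℝ} (h0 : 0 ≤ r0) (h1 : r0 < 1)
    (hM : 0 ≤ M)
    (hc : ∀ t, ∀ᵐ x ∂ν, x ∉ B t → Lw ((Set.Iic r0).indicator 1) Φ x ≤ ENNReal.ofReal M) (i : ℕ) :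
    ∀ t, ∀ᵐ x ∂ν, Lw ((Set.Iic r0).indicator 1) (zp Q Φ B i t) x ≤
      ENNReal.ofReal (M * thf Q (r0 ^ 2) B i t x) := by
  have hw : Measurable ((Set.Iic r0).indicator (1 : ℝ → ℝ≥0∞)) :=
    measurable_one.indicator measurableSet_Iic
  have hr2 : r0 ^ 2 ≤ 1 := by nlinarith
  induction i with
  | zero =>
    intro t
    refine Eventually.of_forall fun x => ?_
    simp [Lw, zp]
  | succ i ih =>
    intro t
    obtain ⟨im, ib⟩ := thf_01 hTT hν (sq_nonneg r0) hr2 hB i (t + 1)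
    have h2 : ∀ᵐ y ∂ν, Lw ((Set.Iic r0).indicator 1)
        (fun q : ℝ × S => ((B (t + 1))ᶜ).indicator (1 : S → ℝ) q.2 * Φ q +
        q.1 * zp Q Φ B i (t + 1) q) y ≤ ENNReal.ofReal (M * (((B (t + 1))ᶜ).indicator
          (1 : S → ℝ) y + r0 ^ 2 * thf Q (r0 ^ 2) B i (t + 1) y)) := by
      filter_upwards [hc (t + 1), ih (t + 1)] with y hy1 hy2
      by_cases hy : y ∈ B (t + 1)
      · refine (Lw_h2 _ Φ B i (t + 1) hy (C := ENNReal.ofReal (r0 ^ 2)) ENNReal.ofReal_ne_top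
          (fun r hr => ?_)).trans ?_
        · by_cases hr0 : r ∈ Set.Iic r0
          · rw [Set.indicator_of_mem hr0, Pi.one_apply, one_mul, mul_one,
              Real.enorm_of_nonneg hr.1.le, ← ENNReal.ofReal_pow hr.1.le]
            refine ENNReal.ofReal_le_ofReal ?_
            have : r ≤ r0 := hr0
            have := hr.1
            gcongr
          · rw [Set.indicator_of_notMem hr0]; simp
        · have hy' : y ∉ (B (t + 1))ᶜ := fun h => h hy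
          rw [Set.indicator_of_notMem hy', zero_add]
          calc _ ≤ ENNReal.ofReal (r0 ^ 2) *
                ENNReal.ofReal (M * thf Q (r0 ^ 2) B i (t + 1) y) := by gcongr
            _ = _ := by
              rw [← ENNReal.ofReal_mul (by positivity)]
              congr 1
              ring
      · rw [Lw_h1 _ Φ B i (t + 1) hy]
        refine (hy1 hy).trans (ENNReal.ofReal_le_ofReal ?_)
        have hy' : y ∈ (B (t + 1))ᶜ := hy
        rw [Set.indicator_of_mem hy', (ib y).2.2 hy]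
        simp
    filter_upwards [ae_nu Q ν hν h2] with x hx
    have hm : Measurable (fun q : ℝ × S => ((B (t + 1))ᶜ).indicator (1 : S → ℝ) q.2 * Φ q +
        q.1 * zp Q Φ B i (t + 1) q) :=
      ((hΦ.ind (hB (t + 1)).compl).add (nice_zp hHAT hTT hν hΦ hB i (t + 1)).fst).1
    refine (Lw_TT hHAT hν hw hm (B t) x).trans ?_
    by_cases hxB : x ∈ B t
    · simp only [thf, Set.indicator_of_mem hxB]
      refine (lintegral_mono_ae hx).trans (le_of_eq ?_)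
      have hm2 : Measurable fun y => ((B (t + 1))ᶜ).indicator (1 : S → ℝ) y +
          r0 ^ 2 * thf Q (r0 ^ 2) B i (t + 1) y :=
        (measurable_one.indicator (hB (t + 1)).compl).add (im.const_mul _)
      have hb : ∀ y, 0 ≤ ((B (t + 1))ᶜ).indicator (1 : S → ℝ) y +
          r0 ^ 2 * thf Q (r0 ^ 2) B i (t + 1) y ∧
          ((B (t + 1))ᶜ).indicator (1 : S → ℝ) y + r0 ^ 2 * thf Q (r0 ^ 2) B i (t + 1) y ≤ 2 := by
        intro y
        obtain ⟨a, b, c⟩ := ib y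
        rcases ind_01 ((B (t + 1))ᶜ) y with h | h <;> rw [h]
        · exact ⟨by positivity, by nlinarith⟩
        · exact ⟨by positivity, by nlinarith⟩
      have hi : Integrable (fun y => M * (((B (t + 1))ᶜ).indicator (1 : S → ℝ) y +
          r0 ^ 2 * thf Q (r0 ^ 2) B i (t + 1) y)) (Q x) := by
        refine (Integrable.of_bound hm2.aestronglyMeasurable 2
          (Eventually.of_forall fun y => ?_)).const_mul M
        rw [Real.norm_of_nonneg (hb y).1]; exact (hb y).2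
      rw [← ofReal_integral_eq_lintegral_ofReal hi
        (Eventually.of_forall fun y => mul_nonneg hM (hb y).1), integral_const_mul]
      rfl
    · simp only [thf, Set.indicator_of_notMem hxB]
      exact zero_le

end three

section four
variable {S : Type} [MeasurableSpace S]
variable {Q : Kernel S S} [IsMarkovKernel Q] {ν : Measure S} [IsProbabilityMeasure ν]

lemma sq_enorm (a : ℝ) : ‖a‖ₑ ^ 2 = ENNReal.ofReal (a ^ 2) := by
  rw [← enorm_pow, Real.enorm_of_nonneg (sq_nonneg a)]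

lemma Nice.sq_ae {Φ : ℝ × S → ℝ} (hΦ : Nice ν Φ) :
    ∀ᵐ x ∂ν, Integrable (fun r => Φ (r, x) ^ 2) lam := by
  have h : Integrable (fun p => Φ p ^ 2) (lam.prod ν) := hΦ.2.integrable_sq
  exact h.prod_left_ae

/-- the truncated square function as a lower integral -/
lemma Lw_sqT {Φ : ℝ × S → ℝ} (hΦ : Nice ν Φ) {r0 c : ℝ} : ∀ᵐ x ∂ν, sqT r0 Φ x ≤ c →
    Lw ((Set.Ioi r0).indicator 1) Φ x ≤ ENNReal.ofReal c := by
  filter_upwards [hΦ.sq_ae] with x hx hc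
  have hi : Integrable ((Set.Ioi r0).indicator fun r => Φ (r, x) ^ 2) lam :=
    hx.indicator measurableSet_Ioi
  have e : Lw ((Set.Ioi r0).indicator 1) Φ x = ENNReal.ofReal (sqT r0 Φ x) := by
    unfold Lw sqT
    rw [ofReal_integral_eq_lintegral_ofReal hi
      (Eventually.of_forall fun r => Set.indicator_nonneg (fun _ _ => sq_nonneg _) r)]
    refine lintegral_congr fun r => ?_
    by_cases hr : r ∈ Set.Ioi r0
    · rw [Set.indicator_of_mem hr, Set.indicator_of_mem hr, Pi.one_apply, one_mul, sq_enorm]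
    · rw [Set.indicator_of_notMem hr, Set.indicator_of_notMem hr]
      simp
  rw [e]
  exact ENNReal.ofReal_le_ofReal hc

lemma Lw_split (r0 : ℝ) {F : ℝ × S → ℝ} (hF : Measurable F) (x : S) :
    Lw 1 F x = Lw ((Set.Ioi r0).indicator 1) F x + Lw ((Set.Iic r0).indicator 1) F x := by
  unfold Lw
  have hm : Measurable fun r => (Set.Ioi r0).indicator (1 : ℝ → ℝ≥0∞) r * ‖F (r, x)‖ₑ ^ 2 :=
    (measurable_one.indicator measurableSet_Ioi).mul
      ((hF.comp measurable_prodMk_right).enorm.pow_const 2)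
  rw [← lintegral_add_left hm]
  refine lintegral_congr fun r => ?_
  by_cases hr : r ≤ r0
  · have h1 : r ∈ Set.Iic r0 := hr
    have h2 : r ∉ Set.Ioi r0 := fun h => absurd hr (not_le.2 h)
    rw [Set.indicator_of_mem h1, Set.indicator_of_notMem h2]
    simp
  · have h1 : r ∉ Set.Iic r0 := hr
    have h2 : r ∈ Set.Ioi r0 := not_le.1 hr
    rw [Set.indicator_of_mem h2, Set.indicator_of_notMem h1]
    simp

omit [MeasurableSpace S] in
lemma Lw_mono {w w' : ℝ → ℝ≥0∞} (h : ∀ r ∈ Set.Ioo (0:ℝ) 1, w r ≤ w' r) (F : ℝ × S → ℝ) (x : S) :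
    Lw w F x ≤ Lw w' F x := by
  unfold Lw
  refine lintegral_mono_ae ?_
  filter_upwards [lam_ae] with r hr
  exact mul_le_mul' (h r hr) le_rfl

/-- the exit part, as lower integrals -/
lemma zp_bound (hHAT : S_HAT) (hTT : S_TT) (hν : ν.bind Q = ν) {Φ : ℝ × S → ℝ} (hΦ : Nice ν Φ)
    {B : ℕ → Set S} (hB : ∀ t, MeasurableSet (B t)) {r0 M ε : ℝ} (h0 : 0 ≤ r0) (h1 : r0 < 1)
    (hM : 0 ≤ M)
    (hc : ∀ t, ∀ᵐ x ∂ν, x ∉ B t → sqT 0 Φ x ≤ M ∧ sqT r0 Φ x ≤ ε) {A : Set S}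
    (hA : MeasurableSet A) (i t : ℕ) :
    ∫⁻ p, ‖zp Q Φ B i t p‖ₑ ^ 2 ∂(nuh ν) ≤ ENNReal.ofReal M * ν (B t ∩ A) +
      ∫⁻ x, (B t \ A).indicator (fun x => ENNReal.ofReal ε +
        ENNReal.ofReal (M * thf Q (r0 ^ 2) B i t x)) x ∂ν := by
  have hz := nice_zp hHAT hTT hν hΦ hB i t
  have c1 : ∀ t, ∀ᵐ x ∂ν, x ∉ B t → Lw 1 Φ x ≤ ENNReal.ofReal M := by
    intro t
    filter_upwards [hc t, Lw_sqT hΦ (r0 := 0) (c := M)] with x hx1 hx2 hx
    refine (Lw_mono (fun r hr => ?_) Φ x).trans (hx2 (hx1 hx).1)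
    rw [Set.indicator_of_mem (show r ∈ Set.Ioi (0:ℝ) from hr.1)]
  have c2 : ∀ t, ∀ᵐ x ∂ν, x ∉ B t →
      Lw ((Set.Ioi r0).indicator 1) Φ x ≤ ENNReal.ofReal ε := by
    intro t
    filter_upwards [hc t, Lw_sqT hΦ (r0 := r0) (c := ε)] with x hx1 hx2 hx
    exact hx2 (hx1 hx).2
  have c3 : ∀ t, ∀ᵐ x ∂ν, x ∉ B t →
      Lw ((Set.Iic r0).indicator 1) Φ x ≤ ENNReal.ofReal M := by
    intro t
    filter_upwards [c1 t] with x hx1 hx
    refine (Lw_mono (fun r _ => ?_) Φ x).trans (hx1 hx)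
    exact Set.indicator_le_self _ _ _
  have d1 := bd1 hHAT hTT hν hΦ hB (w := 1) measurable_one c1 i t
  have d2 := bd1 hHAT hTT hν hΦ hB (w := (Set.Ioi r0).indicator 1)
    (measurable_one.indicator measurableSet_Ioi) c2 i t
  have d3 := bd2 hHAT hTT hν hΦ hB h0 h1 hM c3 i t
  have e1 : ∫⁻ p, ‖zp Q Φ B i t p‖ₑ ^ 2 ∂(nuh ν) = ∫⁻ x, Lw 1 (zp Q Φ B i t) x ∂ν := by
    unfold nuh Lw
    rw [lintegral_prod_symm' _ (hz.1.enorm.pow_const 2)]
    simp
  rw [e1]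
  have e2 : ENNReal.ofReal M * ν (B t ∩ A) =
      ∫⁻ x, (B t ∩ A).indicator (fun _ => ENNReal.ofReal M) x ∂ν := by
    rw [lintegral_indicator_const ((hB t).inter hA)]
  rw [e2, ← lintegral_add_left (measurable_const.indicator ((hB t).inter hA))]
  refine lintegral_mono_ae ?_
  filter_upwards [d1, d2, d3] with x hx1 hx2 hx3
  by_cases hxB : x ∈ B t
  · by_cases hxA : x ∈ A
    · rw [Set.indicator_of_mem (show x ∈ B t ∩ A from ⟨hxB, hxA⟩),
        Set.indicator_of_notMem (show x ∉ B t \ A from fun h => h.2 hxA), add_zero]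
      exact hx1
    · rw [Set.indicator_of_notMem (show x ∉ B t ∩ A from fun h => hxA h.2),
        Set.indicator_of_mem (show x ∈ B t \ A from ⟨hxB, hxA⟩), zero_add,
        Lw_split r0 hz.1]
      exact add_le_add hx2 hx3
  · have : Lw 1 (zp Q Φ B i t) x = 0 := by
      unfold Lw
      have : ∀ r, zp Q Φ B i t (r, x) = 0 := fun r => zp_supp Φ B i t hxB
      simp [this]
    rw [this]
    exact zero_le

/-- the exit part -/
lemma zp_bound' (hHAT : S_HAT) (hTT : S_TT) (hν : ν.bind Q = ν) {Φ : ℝ × S → ℝ} (hΦ : Nice ν Φ)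
    {B : ℕ → Set S} (hB : ∀ t, MeasurableSet (B t)) {r0 M ε : ℝ} (h0 : 0 ≤ r0) (h1 : r0 < 1)
    (hM : 0 ≤ M) (hε : 0 ≤ ε)
    (hc : ∀ t, ∀ᵐ x ∂ν, x ∉ B t → sqT 0 Φ x ≤ M ∧ sqT r0 Φ x ≤ ε) {A : Set S}
    (hA : MeasurableSet A) (i t : ℕ) :
    ∫ p, zp Q Φ B i t p ^ 2 ∂(nuh ν) ≤ M * ν.real (B t ∩ A) +
      ∫ x, (B t \ A).indicator (fun x => ε + M * thf Q (r0 ^ 2) B i t x) x ∂ν := by
  have hz := nice_zp hHAT hTT hν hΦ hB i t
  obtain ⟨tm, tb⟩ := thf_01 hTT hν (sq_nonneg r0) (by nlinarith : r0 ^ 2 ≤ 1) hB i t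
  have hb : ∀ x, 0 ≤ ε + M * thf Q (r0 ^ 2) B i t x := fun x => by
    have := (tb x).1
    positivity
  have hnn : ∀ x, 0 ≤ (B t \ A).indicator (fun x => ε + M * thf Q (r0 ^ 2) B i t x) x :=
    fun x => Set.indicator_nonneg (fun y _ => hb y) x
  have hi : Integrable ((B t \ A).indicator (fun x => ε + M * thf Q (r0 ^ 2) B i t x)) ν := by
    refine Integrable.indicator ?_ ((hB t).diff hA)
    refine Integrable.of_bound (measurable_const.add (tm.const_mul M)).aestronglyMeasurable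
      (ε + M) (Eventually.of_forall fun x => ?_)
    rw [Real.norm_of_nonneg (hb x)]
    have := (tb x).2.1
    nlinarith
  have hRHS : 0 ≤ M * ν.real (B t ∩ A) +
      ∫ x, (B t \ A).indicator (fun x => ε + M * thf Q (r0 ^ 2) B i t x) x ∂ν :=
    add_nonneg (mul_nonneg hM measureReal_nonneg) (integral_nonneg hnn)
  rw [← ENNReal.ofReal_le_ofReal_iff hRHS, ENNReal.ofReal_add (mul_nonneg hM measureReal_nonneg)
    (integral_nonneg hnn), ENNReal.ofReal_mul hM, ofReal_measureReal,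
    ofReal_integral_eq_lintegral_ofReal hi (Eventually.of_forall hnn),
    ofReal_integral_eq_lintegral_ofReal hz.2.integrable_sq
      (Eventually.of_forall fun p => sq_nonneg _)]
  refine le_trans (le_of_eq ?_) ((zp_bound hHAT hTT hν hΦ hB h0 h1 hM hc hA i t).trans
    (le_of_eq ?_))
  · exact lintegral_congr fun p => (sq_enorm _).symm
  · congr 1
    refine lintegral_congr fun x => ?_
    by_cases hx : x ∈ B t \ A
    · rw [Set.indicator_of_mem hx, Set.indicator_of_mem hx,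
        ENNReal.ofReal_add hε (mul_nonneg hM (tb x).1)]
    · rw [Set.indicator_of_notMem hx, Set.indicator_of_notMem hx, ENNReal.ofReal_zero]

lemma Nice.pow {h : ℝ × S → ℝ} (a : Nice ν h) : ∀ k : ℕ, Nice ν (fun p => p.1 ^ k * h p)
  | 0 => by simpa using a
  | k + 1 => by
    have := (Nice.pow a k).fst
    have e : (fun p : ℝ × S => p.1 * (p.1 ^ k * h p)) = fun p => p.1 ^ (k + 1) * h p := by
      funext p; ring
    rwa [e] at this

/-- the end part -/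
lemma zs_bound' (hHAT : S_HAT) (hTT : S_TT) (hν : ν.bind Q = ν) {Φ : ℝ × S → ℝ} (hΦ : Nice ν Φ)
    {B : ℕ → Set S} (hB : ∀ t, MeasurableSet (B t)) (i t : ℕ) :
    ∫ p, zs Q Φ B i t p ^ 2 ∂(nuh ν) ≤ ∫ p, Φ p ^ 2 * p.1 ^ (2 * i) ∂(nuh ν) := by
  have hz := nice_zs hHAT hTT hν hΦ hB i t
  have h := zs_bound hHAT hTT hν hΦ hB i 0 t
  have e : ∫ p, Φ p ^ 2 * p.1 ^ (2 * i) ∂(nuh ν) = ∫ p, (p.1 ^ i * Φ p) ^ 2 ∂(nuh ν) := by
    refine integral_congr_ae (Eventually.of_forall fun p => ?_)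
    ring
  rw [e, ← ENNReal.ofReal_le_ofReal_iff (integral_nonneg fun p => sq_nonneg _),
    ofReal_integral_eq_lintegral_ofReal hz.2.integrable_sq
      (Eventually.of_forall fun p => sq_nonneg _),
    ofReal_integral_eq_lintegral_ofReal (hΦ.pow i).2.integrable_sq
      (Eventually.of_forall fun p => sq_nonneg _)]
  simpa [← sq_enorm] using h

end four

theorem zf (hHAT : S_HAT) (hTT : S_TT) : S_ZF := by
  intro S _ Q _ ν _ hν f Φ Ψ hR M ε r0 hM hε h0 h1 B hB hc A hA N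
  have hΦ : Nice ν Φ := ⟨hR.mΦ, hR.lΦ⟩
  -- one term
  have one : ∀ i t : ℕ, ∫ p, ((B t).indicator 1 p.2 *
      (TT (Qh Q) Φ p - TT (Qh Q) (gam Q f B i (t + 1)) p)) ^ 2 ∂(nuh ν) ≤
      2 * (M * ν.real (B t ∩ A) +
        ∫ x, (B t \ A).indicator (fun y => ε + M * thf Q (r0 ^ 2) B i t y) x ∂ν) +
      2 * ∫ p, Φ p ^ 2 * p.1 ^ (2 * i) ∂(nuh ν) := by
    intro i t
    have hz1 := nice_zp hHAT hTT hν hΦ hB i t
    have hz2 := nice_zs hHAT hTT hν hΦ hB i t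
    have hd := dec hHAT hTT hν hR hB i t
    have b1 := zp_bound' hHAT hTT hν hΦ hB h0 h1 hM hε hc hA i t
    have b2 := zs_bound' hHAT hTT hν hΦ hB i t
    calc ∫ p, ((B t).indicator 1 p.2 *
          (TT (Qh Q) Φ p - TT (Qh Q) (gam Q f B i (t + 1)) p)) ^ 2 ∂(nuh ν)
        = ∫ p, (zp Q Φ B i t p + zs Q Φ B i t p) ^ 2 ∂(nuh ν) := by
          refine integral_congr_ae ?_
          filter_upwards [hd] with p hp
          rw [← hp]
      _ ≤ ∫ p, (2 * zp Q Φ B i t p ^ 2 + 2 * zs Q Φ B i t p ^ 2) ∂(nuh ν) := by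
          refine integral_mono (hz1.add hz2).2.integrable_sq
            ((hz1.2.integrable_sq.const_mul 2).add (hz2.2.integrable_sq.const_mul 2)) fun p => ?_
          simp only
          nlinarith [sq_nonneg (zp Q Φ B i t p - zs Q Φ B i t p)]
      _ = 2 * ∫ p, zp Q Φ B i t p ^ 2 ∂(nuh ν) + 2 * ∫ p, zs Q Φ B i t p ^ 2 ∂(nuh ν) := by
          rw [integral_add (hz1.2.integrable_sq.const_mul 2) (hz2.2.integrable_sq.const_mul 2),
            integral_const_mul, integral_const_mul]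
      _ ≤ _ := by linarith
  have hI : ∀ i : ℕ, Integrable (fun p : ℝ × S => Φ p ^ 2 * p.1 ^ (2 * i)) (nuh ν) := by
    intro i
    have := (hΦ.pow i).2.integrable_sq
    have e : (fun p : ℝ × S => (p.1 ^ i * Φ p) ^ 2) = fun p => Φ p ^ 2 * p.1 ^ (2 * i) := by
      funext p; ring
    rwa [e] at this
  have hI0 : ∀ i : ℕ, 0 ≤ ∫ p : ℝ × S, Φ p ^ 2 * p.1 ^ (2 * i) ∂(nuh ν) := by
    intro i
    refine integral_nonneg fun p => ?_
    have : 0 ≤ p.1 ^ (2 * i) := by rw [pow_mul]; positivity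
    positivity
  have last : ∑ t ∈ range (N - 1), ∫ p, Φ p ^ 2 * p.1 ^ (2 * (N - 1 - t)) ∂(nuh ν) ≤
      ∫ p, Φ p ^ 2 * ∑ i ∈ range N, p.1 ^ (2 * i) ∂(nuh ν) := by
    have e : ∫ p, Φ p ^ 2 * ∑ i ∈ range N, p.1 ^ (2 * i) ∂(nuh ν) =
        ∑ i ∈ range N, ∫ p, Φ p ^ 2 * p.1 ^ (2 * i) ∂(nuh ν) := by
      rw [← integral_finsetSum _ fun i _ => hI i]
      refine integral_congr_ae (Eventually.of_forall fun p => ?_)
      simp only
      rw [Finset.mul_sum]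
    rw [e]
    rcases N with _ | n
    · simp
    · simp only [Nat.add_sub_cancel]
      rw [Finset.sum_range_succ' _ n]
      have e2 : ∑ t ∈ range n, ∫ p, Φ p ^ 2 * p.1 ^ (2 * (n - t)) ∂(nuh ν) =
          ∑ t ∈ range n, ∫ p, Φ p ^ 2 * p.1 ^ (2 * (t + 1)) ∂(nuh ν) := by
        rw [← Finset.sum_range_reflect (fun t => ∫ p, Φ p ^ 2 * p.1 ^ (2 * (t + 1)) ∂(nuh ν))]
        refine Finset.sum_congr rfl fun t ht => ?_
        have : n - 1 - t + 1 = n - t := by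
          have := Finset.mem_range.1 ht
          omega
        rw [this]
      rw [e2]
      have := hI0 0
      linarith
  calc _ ≤ ∑ t ∈ range (N - 1), (2 * (M * ν.real (B t ∩ A) +
        ∫ x, (B t \ A).indicator (fun y => ε + M * thf Q (r0 ^ 2) B (N - 1 - t) t y) x ∂ν) +
      2 * ∫ p, Φ p ^ 2 * p.1 ^ (2 * (N - 1 - t)) ∂(nuh ν)) :=
        Finset.sum_le_sum fun t _ => one (N - 1 - t) t
    _ = 2 * ∑ t ∈ range (N - 1), (M * ν.real (B t ∩ A) +
        ∫ x, (B t \ A).indicator (fun y => ε + M * thf Q (r0 ^ 2) B (N - 1 - t) t y) x ∂ν) +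
        2 * ∑ t ∈ range (N - 1), ∫ p, Φ p ^ 2 * p.1 ^ (2 * (N - 1 - t)) ∂(nuh ν) := by
        rw [Finset.sum_add_distrib, Finset.mul_sum, Finset.mul_sum]
    _ ≤ _ := by linarith

end Pool.Agent.N558.ME
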